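import Pool.Agent.helper28.EG.Spec

/-!
# Project p2x: (MP_70a088_an): IDX: the index inequality
-/

set_option autoImplicit false
set_option linter.all false

open Complex Metric Set Filter Topology MeasureTheory
open WP (it)

noncomputable section

namespace EG

theorem IDX_norm (x S : ℂ) (h : x = 2 * Real.pi * I * S) : S.re ≤ ‖x‖ / (2 * Real.pi) := by
  have hpi := Real.pi_pos
  have h1 : ‖x‖ = 2 * Real.pi * ‖S‖ := by
    rw [h, norm_mul, norm_mul, norm_mul, Complex.norm_I, Complex.norm_real,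
      Real.norm_of_nonneg hpi.le]
    simp
  rw [h1, mul_div_assoc, mul_comm, div_mul_cancel₀ _ (by positivity)]
  exact Complex.re_le_norm S

theorem IDX (hPQE : PQE_stmt) (hRSE : RSE_stmt) (hCCI : CCI_stmt) (hCFL : CFL_stmt) : IDX_stmt := by
  intro f hf
  obtain ⟨C, hC, hfl⟩ := hCFL f hf
  refine ⟨C, hC, ?_⟩
  intro q m γ B hq hγ hne hw hB
  obtain ⟨hdeg, hev, hder, hroot⟩ := hPQE f q hf hq
  set P := Pq f q with hP
  have hP0 : P ≠ 0 := by
    intro h
    rw [h] at hdeg
    simp at hdeg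
  have hres : ∀ p : ℂ, ∃ c : ℂ, IsRes (fun z => 1 / P.eval z) p c := fun p => (hRSE P p hP0).1
  choose c hc using hres
  obtain ⟨h1, h2⟩ := hCCI m γ P c hγ (by omega) (by
    intro j hj t ht h
    rw [hev] at h
    exact hne j hj t ht (sub_eq_zero.1 h)) (fun p _ => hc p)
  have e1 : (fun z => 1 / P.eval z) = fun z => 1 / (it f q z - z) := by
    funext z; rw [hev]
  have e2 : (fun z => P.derivative.eval z / P.eval z) =
      fun z => (deriv (it f q) z - 1) / (it f q z - z) := by
    funext z; rw [hev, hder]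
  rw [e1] at h1
  rw [e2] at h2
  have n1 := IDX_norm _ _ h1
  have n2 := IDX_norm _ _ h2
  have hpt : ∀ p ∈ P.roots.toFinset, 0 ≤ (wnd m γ p * c p).re +
      C * (wnd m γ p * (P.rootMultiplicity p : ℂ)).re := by
    intro p hp
    have hfix := (hroot p).1 hp
    rcases hw p hfix with h | h
    · rw [h]; simp
    · rw [h, one_mul, one_mul, Complex.natCast_re]
      have := (hfl q hq p (c p) hfix (by rw [← hP]; exact hc p)).1
      exact this
  have hsub : B ⊆ P.roots.toFinset := fun p hp => (hroot p).2 (hB p hp).1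
  have h3 : ∑ p ∈ B, ((1 / (deriv (it f q) p - 1)).re + 1 / 2) ≤
      ∑ p ∈ B, ((wnd m γ p * c p).re + C * (wnd m γ p * (P.rootMultiplicity p : ℂ)).re) := by
    refine Finset.sum_le_sum (fun p hp => ?_)
    obtain ⟨hfix, hwp, hl⟩ := hB p hp
    rw [hwp, one_mul, one_mul, Complex.natCast_re]
    exact (hfl q hq p (c p) hfix (by rw [← hP]; exact hc p)).2 hl
  have h4 := Finset.sum_le_sum_of_subset_of_nonneg hsub (fun p hp _ => hpt p hp)
  have h5 : ∑ p ∈ P.roots.toFinset, ((wnd m γ p * c p).re +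
      C * (wnd m γ p * (P.rootMultiplicity p : ℂ)).re) =
      (∑ p ∈ P.roots.toFinset, wnd m γ p * c p).re +
        C * (∑ p ∈ P.roots.toFinset, wnd m γ p * (P.rootMultiplicity p : ℂ)).re := by
    rw [Complex.re_sum, Complex.re_sum, Finset.sum_add_distrib, Finset.mul_sum]
  have hC0 : 0 ≤ C := by linarith
  have h6 := mul_le_mul_of_nonneg_left n2 hC0
  calc _ ≤ _ := h3
    _ ≤ _ := h4
    _ = _ := h5
    _ ≤ _ := add_le_add n1 h6
    _ = _ := by ring

end EG
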